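import Mathlib
import Pool.Agent.W796.PH.Main

/-!
# Linear oscillation decay of the flux of planar `p`-harmonic functions, `p ≥ 2`

For every `p ≥ 2` there is a constant `c`, depending only on `p`, such that for every open set `Ω`
of the plane, every `p`-harmonic function `h` on `Ω`, every ball `B ⊆ Ω` and every `θ ∈ (0,1)`
the mean oscillation of `A(∇h) = |∇h|^{p-2} ∇h` over `θB` is at most `c θ` times its mean
oscillation over `B`.

Idea of the proof: the complex conjugate of `∇h` is quasiregular with constant `K = p - 1` (a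
regularisation of the vector field `|∇h|^{(p-2)/2} ∇h` is used to see this without any a priori
regularity), so that `∇h` is Hölder continuous with exponent `1/(p-1)`, with a sharp isoperimetric
growth estimate; at a scale where `|∇h|` is large compared with its oscillation, a linear change
of variables makes the gradient quasiregular with constant `1 + O(r^α)` at the centre, and
the growth estimate with this variable constant gives linear decay of the oscillation of `∇h`.
The two regimes match exactly, since `(1/(p-1)) (p-1) = 1`.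
-/

set_option autoImplicit false

open MeasureTheory Metric Set
open scoped ENNReal ContDiff

namespace Pool.Agent.Results.MP_6c6114_an.LinearDecay

/-- The Euclidean plane. -/
abbrev Plane : Type := EuclideanSpace ℝ (Fin 2)

/-- `A(Q) = |Q|^{p-2} Q`. -/
noncomputable def A (p : ℝ) (Q : Plane) : Plane := (‖Q‖ ^ (p - 2) : ℝ) • Q

/-- `h` is `p`-harmonic in `Ω` with weak gradient `g`: `h` and `g` are in `L^p_loc(Ω)`, `g` is the
distributional gradient of `h` on `Ω` (so `h ∈ W^{1,p}_loc(Ω)` and `∇h = g`), and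
`div (A(g)) = 0` on `Ω` in the sense of distributions. -/
structure IsPHarmonic (p : ℝ) (Ω : Set Plane) (h : Plane → ℝ) (g : Plane → Plane) : Prop where
  memLp : ∀ K : Set Plane, IsCompact K → K ⊆ Ω → MemLp h (ENNReal.ofReal p) (volume.restrict K)
  memLp_grad : ∀ K : Set Plane, IsCompact K → K ⊆ Ω →
    MemLp g (ENNReal.ofReal p) (volume.restrict K)
  grad : ∀ φ : Plane → ℝ, ContDiff ℝ ∞ φ → HasCompactSupport φ → tsupport φ ⊆ Ω → ∀ v : Plane,
    ∫ x in Ω, h x * fderiv ℝ φ x v = - ∫ x in Ω, inner ℝ (g x) v * φ x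
  div_eq_zero : ∀ φ : Plane → ℝ, ContDiff ℝ ∞ φ → HasCompactSupport φ → tsupport φ ⊆ Ω →
    ∫ x in Ω, inner ℝ (A p (g x)) (gradient φ x) = 0

/-- **Linear decay.** For every `p ≥ 2` there is `c > 0` such that for every open `Ω ⊆ ℝ²`, every
`p`-harmonic `h` on `Ω` with gradient `g`, every ball `B = B(x₀, R) ⊆ Ω` (with `A(∇h) ∈ L¹(B)`, so
that the averages over `B` make sense; this holds whenever the closed ball is in `Ω`) and every
`θ ∈ (0,1)`, the decay estimate with exponent `1` holds. -/
theorem result : ∀ p : ℝ, 2 ≤ p → ∃ c : ℝ, 0 < c ∧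
    ∀ (Ω : Set Plane) (h : Plane → ℝ) (g : Plane → Plane), IsOpen Ω → IsPHarmonic p Ω h g →
    ∀ (x₀ : Plane) (R : ℝ), 0 < R → ball x₀ R ⊆ Ω →
    IntegrableOn (fun x => A p (g x)) (ball x₀ R) → ∀ θ : ℝ, 0 < θ → θ < 1 →
    ⨍ x in ball x₀ (θ * R), ‖A p (g x) - ⨍ y in ball x₀ (θ * R), A p (g y)‖ ≤
      c * θ * ⨍ x in ball x₀ R, ‖A p (g x) - ⨍ y in ball x₀ R, A p (g y)‖ := by
  intro p hp
  obtain ⟨c, hc, hD⟩ := Pool.Agent.W796.PH.decay_main p hp
  refine ⟨c, hc, ?_⟩
  intro Ω h g hΩ hh x₀ R hR hB hI θ h0 h1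
  exact hD Ω h g hΩ ⟨hh.memLp, hh.memLp_grad, hh.grad, hh.div_eq_zero⟩ x₀ R hR hB hI θ h0 h1

end Pool.Agent.Results.MP_6c6114_an.LinearDecay
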